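import Pool.Agent.Y718.FQ.Stm
import Pool.Agent.Y447.CL.Small

/-!
# Divisibility in the directions of a chart
-/

set_option autoImplicit false

open MvPolynomial Pool.Agent.Y718 Pool.Agent.Y718.SF

namespace Pool.Agent.Y155.FQ

open Pool.Agent.Y718.FQ

theorem bd : S_BD := by
  intro K _ _ n F hF p z h
  have hB : ∀ u : Fin n → K, MvPolynomial.eval u (gB (Pool.Agent.Y718.CL.g0 (dh F p) z)) =
      gB (lg F (ic p 1 z) (ic p 0 u)) := by
    intro u
    rw [Pool.Agent.Y718.CL.Bp_eval, dh_lg]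
  have hT : ∀ u : Fin n → K, MvPolynomial.eval u (SF.gT (Pool.Agent.Y718.CL.g0 (dh F p) z)) =
      SF.gT (lg F (ic p 1 z) (ic p 0 u)) := by
    intro u
    rw [Pool.Agent.Y718.CL.Tp_eval, dh_lg]
  have hs : ∀ U : Fin (n + 1) → K,
      U = ic p 0 (fun j => U (p.succAbove j) - U p * z j) + U p • ic p 1 z := fun U => ic_split p z U
  have h2 : ∀ U : Fin (n + 1) → K, gB (lg F (ic p 1 z) U) =
      gB (lg F (ic p 1 z) (ic p 0 (fun j => U (p.succAbove j) - U p * z j))) := by
    intro U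
    conv_lhs => rw [hs U]
    rw [gB_shift hF]
  rcases h with h | h
  · left
    intro U
    rw [h2, ← hB, h, map_zero]
  · right
    obtain ⟨l, hl⟩ := Pool.Agent.Y447.CL.lin K (Fin n)
      (gB (Pool.Agent.Y718.CL.g0 (dh F p) z)) (SF.gT (Pool.Agent.Y718.CL.g0 (dh F p) z))
      (Pool.Agent.Y718.CL.hom_of_scale fun U c => by
        rw [Pool.Agent.Y718.CL.Bp_eval, Pool.Agent.Y718.CL.Bp_eval, gB_smul])
      (Pool.Agent.Y718.CL.hom_of_scale fun U c => by
        rw [Pool.Agent.Y718.CL.Tp_eval, Pool.Agent.Y718.CL.Tp_eval, SF.gT_smul]) h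
    refine ⟨ic p (-(∑ j, l j * z j) - 8 * MvPolynomial.eval (ic p 1 z) F) l, fun U => ?_⟩
    have e1 : SF.gT (lg F (ic p 1 z) U) =
        SF.gT (lg F (ic p 1 z) (ic p 0 (fun j => U (p.succAbove j) - U p * z j))) -
        8 * U p * (lg F (ic p 1 z) (ic p 0 (fun j => U (p.succAbove j) - U p * z j))).coeff 0 *
          gB (lg F (ic p 1 z) (ic p 0 (fun j => U (p.succAbove j) - U p * z j))) := by
      conv_lhs => rw [hs U]
      rw [gT_shift hF]
    have e3 := hl (fun j => U (p.succAbove j) - U p * z j)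
    rw [hT, hB] at e3
    have e4 : ∑ j, l j * (U (p.succAbove j) - U p * z j) =
        ∑ j, l j * U (p.succAbove j) - U p * ∑ j, l j * z j := by
      rw [Finset.mul_sum, ← Finset.sum_sub_distrib]
      exact Finset.sum_congr rfl fun j _ => by ring
    have e5 : (lg F (ic p 1 z) (ic p 0 (fun j => U (p.succAbove j) - U p * z j))).coeff 0 =
        MvPolynomial.eval (ic p 1 z) F := by
      rw [Polynomial.coeff_zero_eq_eval_zero, lg_eval, zero_smul, add_zero]
    rw [e1, h2 U, e3, e4, e5, Fin.sum_univ_succAbove _ p, ic_same]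
    simp only [ic_above]
    ring

end Pool.Agent.Y155.FQ
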